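import Pool.Agent.H67.KP.EV4
import Pool.Agent.H59.KP.EVJ

/-!
# Project KP, module BET: the enemy along the channel
-/

set_option autoImplicit false

open MeasureTheory Set Filter Topology
open scoped ContDiff

namespace Pool.Agent.H78.KP

open Pool.Agent.H84 Pool.Agent.H84.Sym Pool.Agent.H84.Sym.P2x Pool.Agent.H19.KL
open Pool.Agent.H73.KG Pool.Agent.H20.KH

section

variable {E : Type} [NormedAddCommGroup E] [InnerProductSpace ℝ E]
    [FiniteDimensional ℝ E] [MeasurableSpace E] [BorelSpace E]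

/-- the correlation with the third moments is a function of class `GC` -/
theorem BET_gc (hRGC : RGCStmt E) (hRGP : RGPStmt E) (hAAG : AAGStmt E) {U : E → ℝ} {t : ℝ}
    (hU : PP U t) {ι : Type} [Fintype ι] [DecidableEq ι] (b : OrthonormalBasis ι ℝ E) {u : E → ℝ}
    (hu : Tst u) {r : ℝ} (hr : 0 < r) :
    GC (fun θ => TC b (pw U r θ) (pw U r θ) u) := by
  set F : ι → ι → E → ℝ := fun i j x => D (b i) u x * D (b j) u x with hF
  have hFG : ∀ i j, GC (F i j) := fun i j => Pool.Agent.H59.KP.evj_DD hu (b i) (b j)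
  set P : ι → ι → ℝ → E → ℝ := fun i j r θ => pm U r θ (F i j) with hP
  set A : ι → ι → ℝ → E → ℝ := fun i j r θ => cm b (pw U r θ) i j with hA
  have hPr : ∀ i j, RG (P i j) := fun i j => (hRGP U t hU (F i j) (hFG i j)).1
  have hAr : ∀ i j, RG (A i j) := fun i j => (hAAG U t hU ι b i j).1
  have e : (fun θ => TC b (pw U r θ) (pw U r θ) u) =
      fun θ => ∑ k, ∑ i, ∑ j, D (b k) (A i j r) θ * D (b k) (P i j r) θ := by
    funext θ
    unfold TC
    refine Finset.sum_congr rfl fun k _ => Finset.sum_congr rfl fun i _ =>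
      Finset.sum_congr rfl fun j _ => ?_
    have g3 : D (b k) (A i j r) θ = t3 (pw U r θ) (b k) (b i) (b j) :=
      (hAAG U t hU ι b i j).2.2 r θ (b k) hr.le
    have g4 : D (b k) (P i j r) θ = Pool.Agent.H73.KG.cv (pw U r θ) (F i j) (li (b k)) :=
      ((hRGP U t hU (F i j) (hFG i j)).2.1 r θ (b k) hr.le).2
    rw [g3, g4]
    congr 1
    unfold Pool.Agent.H73.KG.cv
    congr 1
    · exact integral_congr_ae (Eventually.of_forall fun x => mul_comm _ _)
    · exact mul_comm _ _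
  rw [e]
  exact GC.sum (s := Finset.univ)
    (F := fun k θ => ∑ i, ∑ j, D (b k) (A i j r) θ * D (b k) (P i j r) θ) fun k =>
    GC.sum (s := Finset.univ)
      (F := fun i θ => ∑ j, D (b k) (A i j r) θ * D (b k) (P i j r) θ) fun i =>
      GC.sum (s := Finset.univ)
        (F := fun j θ => D (b k) (A i j r) θ * D (b k) (P i j r) θ) fun j =>
        GC.mul (Pool.Agent.H59.KP.evj_D hRGC (hAr i j) hr (b k))
          (Pool.Agent.H59.KP.evj_D hRGC (hPr i j) hr (b k))

/-- elementary inequality -/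
theorem BET_num {q s X Y : ℝ} (hq : 0 ≤ q) (hs : 0 < s) (hX : Real.sqrt q ≤ X) (hY : 0 ≤ Y) :
    (1 + Real.sqrt q) ^ 3 * Y ≤ (1 + (3 + 3 * X + X ^ 2) / 2 * Real.sqrt s) * Y +
      (3 + 3 * X + X ^ 2) / 2 / Real.sqrt s * (q * Y) := by
  set x := Real.sqrt q with hx
  have hx0 : 0 ≤ x := Real.sqrt_nonneg _
  have hxq : x ^ 2 = q := Real.sq_sqrt hq
  have hss : 0 < Real.sqrt s := Real.sqrt_pos.2 hs
  have hX0 : 0 ≤ X := hx0.trans hX
  set B := 3 + 3 * X + X ^ 2 with hB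
  have hB0 : 0 ≤ B := by positivity
  have h1 : (1 + x) ^ 3 ≤ 1 + B * x := by
    have : (1 + x) ^ 3 = 1 + (3 + 3 * x + x ^ 2) * x := by ring
    rw [this]
    have h2 : 3 + 3 * x + x ^ 2 ≤ B := by rw [hB]; nlinarith
    nlinarith
  have h2 : x ≤ (Real.sqrt s + q / Real.sqrt s) / 2 := by
    have h3 : 2 * x * Real.sqrt s ≤ Real.sqrt s ^ 2 + q := by
      rw [← hxq]
      nlinarith [sq_nonneg (x - Real.sqrt s)]
    have h4 : (Real.sqrt s + q / Real.sqrt s) / 2 = (Real.sqrt s ^ 2 + q) / (2 * Real.sqrt s) := by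
      field_simp
    rw [h4, le_div_iff₀ (by positivity)]
    linarith
  calc (1 + x) ^ 3 * Y ≤ (1 + B * x) * Y := mul_le_mul_of_nonneg_right h1 hY
    _ ≤ (1 + B * ((Real.sqrt s + q / Real.sqrt s) / 2)) * Y := by
        refine mul_le_mul_of_nonneg_right ?_ hY
        have := mul_le_mul_of_nonneg_left h2 hB0
        linarith
    _ = _ := by ring

end

theorem bet_thm (E : Type) [NormedAddCommGroup E] [InnerProductSpace ℝ E]
    [FiniteDimensional ℝ E] [MeasurableSpace E] [BorelSpace E]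
    (hCOR : CORStmt E) (hT3S : T3SStmt E) (hEV4 : EV4Stmt E) (hQCA : QCAStmt E)
    (hBAS : BASStmt E) (hPWB : PWBStmt E) (hRGC : RGCStmt E) (hRGP : RGPStmt E)
    (hBAY : BAYStmt E) (hAAG : AAGStmt E) : BETStmt E := by
  intro t0 ht0 ht01
  classical
  set n : ℝ := (Module.finrank ℝ E : ℝ) with hn
  have hn0 : 0 ≤ n := Nat.cast_nonneg _
  set X : ℝ := 2 * n / t0 with hXdef
  have hX0 : 0 ≤ X := by positivity
  set B : ℝ := (3 + 3 * X + X ^ 2) / 2 with hBdef
  have hB0 : 1 ≤ B := by rw [hBdef]; nlinarith [sq_nonneg X]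
  set C4 : ℝ := 20 * n ^ 3 / t0 ^ 4 with hC4
  have hC40 : 0 ≤ C4 := by positivity
  refine ⟨B * (1 + C4), by nlinarith, ?_⟩
  intro κ hκ hTK U t ht0t ht1 hU hcov ι _ b u lam s hu hlam hs hs1 r hr
  have ht : 0 < t := ht0.trans_le ht0t
  have hr0 : 0 < r := hr.1
  have hrs : r ≤ s := hr.2.le
  have hcard : (Fintype.card ι : ℝ) = n := by
    rw [hn]
    congr 1
    exact (Module.finrank_eq_card_basis b.toBasis).symm
  set g : E → ℝ := fun x => ‖fderiv ℝ u x‖ ^ 2 with hg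
  have hgg : GC g := EV4_gc_grad hu
  have hgh : GC (hq b u) := EV4_gc_hq b hu
  have hss : 0 < Real.sqrt s := Real.sqrt_pos.2 hs
  -- pointwise bound
  have hpt : ∀ θ : E, TC b (pw U r θ) (pw U r θ) u ≤
      (lam * κ / t * (1 + B * Real.sqrt s)) * pm U r θ g +
        ((lam * κ / t * (B / Real.sqrt s)) * (qd b U r θ * pm U r θ g) +
        (1 / t * (1 / lam)) * pm U r θ (hq b u)) := by
    intro θ
    obtain ⟨hP1, hP2, -⟩ := hPWB U t hU
    have hP : PP (pw U r θ) (t + r) := hP1 r θ hr0.le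
    obtain ⟨hq0, hqle, hqc⟩ := hQCA U t hU hcov ι b r θ hr0.le
    have hP0 : PP (pw U r θ) t0 := hBAS.1 _ _ _ hP ht0 (by linarith)
    have ha : (1:ℝ) ≤ 1 + Real.sqrt (qd b U r θ) := by
      have := Real.sqrt_nonneg (qd b U r θ)
      linarith
    have hT : T3L (pw U r θ) ((1 + Real.sqrt (qd b U r θ)) ^ 3 * κ) :=
      hT3S t0 κ ht0 hκ hTK _ _ hP0 ha hqc
    have hκ' : 0 ≤ (1 + Real.sqrt (qd b U r θ)) ^ 3 * κ := by positivity
    have hmain := hCOR _ (t + r) _ hP hT hκ' (pw U r θ) (t + r) hP ι b u lam hu hlam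
    have hY : Y1 (pw U r θ) u = pm U r θ g := hP2 r θ hr0.le g
    have hZ : Z1 b (pw U r θ) u = pm U r θ (hq b u) := hP2 r θ hr0.le (hq b u)
    have hY0 : 0 ≤ pm U r θ g := by
      rw [← hY]
      exact integral_nonneg fun x => by positivity
    have hZ0 : 0 ≤ pm U r θ (hq b u) := by
      rw [← hZ]
      exact integral_nonneg fun x =>
        Finset.sum_nonneg fun i _ => Finset.sum_nonneg fun j _ => sq_nonneg _
    rw [hY, hZ] at hmain
    have hbr : 0 ≤ lam * ((1 + Real.sqrt (qd b U r θ)) ^ 3 * κ) * pm U r θ g +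
        1 / lam * pm U r θ (hq b u) := by positivity
    have h1 : 1 / (t + r) ≤ 1 / t := one_div_le_one_div_of_le ht (by linarith)
    have h2 := hmain.trans (mul_le_mul_of_nonneg_right h1 hbr)
    have hsq : Real.sqrt (qd b U r θ) ≤ X := by
      have h3 : qd b U r θ ≤ X ^ 2 := by
        refine hqle.trans ?_
        rw [hcard, hXdef, div_pow, mul_pow]
        norm_num
        gcongr
      exact Real.sqrt_le_iff.2 ⟨hX0, h3⟩
    have h3 := BET_num hq0 hs hsq hY0
    rw [← hBdef] at h3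
    have hlk : 0 ≤ lam * κ / t := by positivity
    have h4 := mul_le_mul_of_nonneg_left h3 hlk
    have e1 : 1 / t * (lam * ((1 + Real.sqrt (qd b U r θ)) ^ 3 * κ) * pm U r θ g +
        1 / lam * pm U r θ (hq b u)) =
        lam * κ / t * ((1 + Real.sqrt (qd b U r θ)) ^ 3 * pm U r θ g) +
        (1 / t * (1 / lam)) * pm U r θ (hq b u) := by ring
    have e2 : lam * κ / t * ((1 + B * Real.sqrt s) * pm U r θ g +
        B / Real.sqrt s * (qd b U r θ * pm U r θ g)) =
        (lam * κ / t * (1 + B * Real.sqrt s)) * pm U r θ g +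
        (lam * κ / t * (B / Real.sqrt s)) * (qd b U r θ * pm U r θ g) := by ring
    rw [e1] at h2
    rw [e2] at h4
    linarith
  -- integration
  obtain ⟨-, hadd, hmul, -, hmono, -, hmean⟩ := hBAY U t hU r hr0.le
  have rp : RG (fun s θ => pm U s θ g) := (hRGP U t hU g hgg).1
  have rh : RG (fun s θ => pm U s θ (hq b u)) := (hRGP U t hU (hq b u) hgh).1
  obtain ⟨rG, hE4⟩ := hEV4 U t hU ht1 ι b u hu r hr0
  have g0 : GC (fun θ => TC b (pw U r θ) (pw U r θ) u) := BET_gc hRGC hRGP hAAG hU b hu hr0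
  have g1 : GC (fun θ => pm U r θ g) := (hRGC.2.2.2.2.2.1 _ rp r hr0).1
  have g2 : GC (fun θ => pm U r θ (hq b u)) := (hRGC.2.2.2.2.2.1 _ rh r hr0).1
  have g3 : GC (fun θ => qd b U r θ * pm U r θ g) := (hRGC.2.2.2.2.2.1 _ rG r hr0).1
  have gc1 : ∀ c : ℝ, GC (fun θ => c * pm U r θ g) := fun c => GC.mul (GC.const _) g1
  have gc2 : ∀ c : ℝ, GC (fun θ => c * pm U r θ (hq b u)) := fun c => GC.mul (GC.const _) g2
  have gc3 : ∀ c : ℝ, GC (fun θ => c * (qd b U r θ * pm U r θ g)) := fun c =>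
    GC.mul (GC.const _) g3
  have e1 := hmono _ (fun θ => (lam * κ / t * (1 + B * Real.sqrt s)) * pm U r θ g +
        ((lam * κ / t * (B / Real.sqrt s)) * (qd b U r θ * pm U r θ g) +
        (1 / t * (1 / lam)) * pm U r θ (hq b u))) g0
    (GC.add (gc1 _) (GC.add (gc3 _) (gc2 _))) hpt
  rw [hadd _ _ (gc1 _) (GC.add (gc3 _) (gc2 _)), hadd _ _ (gc3 _) (gc2 _), hmul, hmul, hmul,
    hmean g hgg, hmean (hq b u) hgh] at e1
  have hYe : ∫ x, g x ∂(mu U) = Y1 U u := rfl
  have hZe : ∫ x, hq b u x ∂(mu U) = Z1 b U u := rfl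
  rw [hYe, hZe] at e1
  have Y0 : 0 ≤ Y1 U u := integral_nonneg fun x => by positivity
  have Z0 : 0 ≤ Z1 b U u := integral_nonneg fun x =>
    Finset.sum_nonneg fun i _ => Finset.sum_nonneg fun j _ => sq_nonneg _
  have h5 : EX U r (fun θ => qd b U r θ * pm U r θ g) ≤ C4 * s * (Y1 U u + Z1 b U u) := by
    refine hE4.trans ?_
    rw [hcard, hC4]
    gcongr
  have hlk : 0 ≤ lam * κ / t := by positivity
  have h6 : lam * κ / t * (B / Real.sqrt s) * EX U r (fun θ => qd b U r θ * pm U r θ g) ≤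
      lam * κ / t * (B / Real.sqrt s) * (C4 * s * (Y1 U u + Z1 b U u)) :=
    mul_le_mul_of_nonneg_left h5 (by positivity)
  refine (e1.trans (add_le_add_right (add_le_add_left h6 _) _)).trans ?_
  have hs2 : s / Real.sqrt s = Real.sqrt s := Real.div_sqrt
  have e3 : lam * κ / t * (B / Real.sqrt s) * (C4 * s * (Y1 U u + Z1 b U u)) =
      lam * κ / t * (B * C4 * (s / Real.sqrt s) * (Y1 U u + Z1 b U u)) := by ring
  rw [e3, hs2]
  have e4 : 1 / t * (lam * κ * ((1 + B * (1 + C4) * Real.sqrt s) * Y1 U u +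
      B * (1 + C4) * Real.sqrt s * Z1 b U u) + 1 / lam * Z1 b U u) =
      lam * κ / t * (1 + B * Real.sqrt s) * Y1 U u +
      (lam * κ / t * (B * C4 * Real.sqrt s * (Y1 U u + Z1 b U u)) +
      1 / t * (1 / lam) * Z1 b U u) + lam * κ / t * (B * Real.sqrt s * Z1 b U u) := by ring
  rw [e4]
  have h7 : 0 ≤ lam * κ / t * (B * Real.sqrt s * Z1 b U u) := by positivity
  linarith

end Pool.Agent.H78.KP
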